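import Pool.Agent.Helper17.CT.Defs

/-!
CT-19: a minimal nontrivial 3-edge-cut, contracted, gives a cyclically 4-edge-connected map.
-/

set_option autoImplicit false

namespace Pool.Agent.Helper17.CT

section maps

variable {D : Type} (M : CMap D)

/-- the vertex set `X` has at least two vertices -/
def ct19Big (X : D → Bool) : Prop := ∀ v, ∃ d, X d = true ∧ ¬ M.VEq v d

variable {M}

theorem ct19_veq_refl (v : D) : M.VEq v v := Or.inl rfl

theorem ct19_veq_symm {v w : D} (h : M.VEq v w) : M.VEq w v := by
  rcases h with h | h | h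
  · exact Or.inl h.symm
  · right; right
    rw [h, M.s3]
  · right; left
    rw [h, M.s3]

theorem ct19_veq_trans {u v w : D} (h : M.VEq u v) (h' : M.VEq v w) : M.VEq u w := by
  rcases h with rfl | rfl | rfl <;> rcases h' with rfl | rfl | rfl
  · exact Or.inl rfl
  · exact Or.inr (Or.inl rfl)
  · exact Or.inr (Or.inr rfl)
  · exact Or.inr (Or.inl rfl)
  · exact Or.inr (Or.inr rfl)
  · left; rw [M.s3]
  · exact Or.inr (Or.inr rfl)
  · left; rw [M.s3]
  · right; left; rw [M.s3]

theorem ct19_ne2 (d : D) : M.s (M.s d) ≠ d := by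
  intro h
  have h1 := M.s3 d
  rw [h] at h1
  exact M.s1 d h1

theorem ct19_iter_inj (d : D) {i j : ℕ} (hi : i < 3) (hj : j < 3)
    (h : (M.s)^[i] d = (M.s)^[j] d) : i = j := by
  have a1 := M.s1 d
  have a2 := ct19_ne2 (M := M) d
  have a3 : M.s (M.s d) ≠ M.s d := M.s1 (M.s d)
  interval_cases i <;> interval_cases j
  · rfl
  · exact absurd h.symm a1
  · exact absurd h.symm a2
  · exact absurd h a1
  · rfl
  · exact absurd h.symm a3
  · exact absurd h a2
  · exact absurd h a3
  · rfl

theorem ct19_iter_veq (d : D) {i : ℕ} (hi : i < 3) : M.VEq d ((M.s)^[i] d) := by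
  interval_cases i
  · exact Or.inl rfl
  · exact Or.inr (Or.inl rfl)
  · exact Or.inr (Or.inr rfl)

theorem ct19_iter_mem {X : D → Bool} (hX : M.VSet X) (d : D) (hd : X d = true) (i : ℕ) :
    X ((M.s)^[i] d) = true := by
  induction i with
  | zero => exact hd
  | succ i ih => rw [Function.iterate_succ_apply', hX]; exact ih

theorem ct19_card {X : D → Bool} [Finite D] [Nonempty D] (hX : M.VSet X) (hB : ct19Big M X) :
    6 ≤ Nat.card {d : D // X d = true} := by
  classical
  obtain ⟨d0, hd0, -⟩ := hB (Classical.arbitrary D)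
  obtain ⟨d1, hd1, hn⟩ := hB d0
  have key : ∀ i j : ℕ, i < 3 → j < 3 → (M.s)^[i] d0 ≠ (M.s)^[j] d1 := by
    intro i j hi hj h
    apply hn
    have h1 := ct19_iter_veq (M := M) d0 hi
    have h2 := ct19_iter_veq (M := M) d1 hj
    rw [h] at h1
    exact ct19_veq_trans h1 (ct19_veq_symm h2)
  let g : Bool × Fin 3 → {d : D // X d = true} := fun p =>
    if p.1 then ⟨(M.s)^[p.2.1] d0, ct19_iter_mem hX d0 hd0 _⟩
    else ⟨(M.s)^[p.2.1] d1, ct19_iter_mem hX d1 hd1 _⟩
  have hinj : Function.Injective g := by
    rintro ⟨b, i⟩ ⟨b', i'⟩ h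
    have h' := congrArg Subtype.val h
    cases b <;> cases b'
    · have := ct19_iter_inj d1 i.2 i'.2 h'
      rw [Fin.ext this]
    · exact absurd h'.symm (key _ _ i'.2 i.2)
    · exact absurd h' (key _ _ i.2 i'.2)
    · have := ct19_iter_inj d0 i.2 i'.2 h'
      rw [Fin.ext this]
  have := Nat.card_le_card_of_injective g hinj
  simpa using this

theorem ct19_bd_compl [Finite D] (X : D → Bool) : M.bd (fun d => !X d) = M.bd X := by
  unfold CMap.bd
  refine Nat.card_congr ⟨fun d => ⟨M.a d.1, ?_⟩, fun d => ⟨M.a d.1, ?_⟩, ?_, ?_⟩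
  · have h1 := d.2.1
    have h2 := d.2.2
    simp only [Bool.not_eq_true', Bool.not_eq_false'] at h1 h2
    exact ⟨h2, by rw [M.a2]; exact h1⟩
  · have h1 := d.2.1
    have h2 := d.2.2
    simp only [Bool.not_eq_true', Bool.not_eq_false']
    exact ⟨h2, by rw [M.a2]; exact h1⟩
  · intro d
    exact Subtype.ext (M.a2 d.1)
  · intro d
    exact Subtype.ext (M.a2 d.1)

/-- CT-19: every minimal nontrivial 3-cut side, contracted, is cyclically 4-edge-connected. -/
theorem exists_cyc4 (M : CMap D) [Finite D] [Nonempty D] (hc : M.Con3) (h : ¬ M.Cyc4) :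
    ∃ X : D → Bool, M.VSet X ∧ M.bd X = 3 ∧ (∃ d, X d = false) ∧ 6 ≤ Nat.card {d : D // X d = true} ∧
      6 ≤ Nat.card {d : D // X d = false} ∧
      ∀ M' : CMap {d : D // X d = true ∨ X (M.a d) = true}, M.IsContr X M' → M'.Cyc4 := by
  classical
  -- good sets
  let Good : (D → Bool) → Prop := fun X => M.VSet X ∧ M.bd X = 3 ∧ ct19Big M X ∧
    ct19Big M (fun d => !X d)
  have hex : ∃ n, ∃ X, Good X ∧ Nat.card {d : D // X d = true} = n := by
    unfold CMap.Cyc4 at h
    push Not at h
    obtain ⟨X, hX, hb, h1, h2⟩ := h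
    have hB1 : ct19Big M X := by
      intro v
      obtain ⟨d, hd, e1, e2, e3⟩ := h1 v
      refine ⟨d, hd, ?_⟩
      rintro (e | e | e)
      · exact e1 e
      · exact e2 e
      · exact e3 e
    have hB2 : ct19Big M (fun d => !X d) := by
      intro v
      obtain ⟨d, hd, e1, e2, e3⟩ := h2 v
      refine ⟨d, by simp [hd], ?_⟩
      rintro (e | e | e)
      · exact e1 e
      · exact e2 e
      · exact e3 e
    obtain ⟨d, hd, -⟩ := hB1 (Classical.arbitrary D)
    obtain ⟨d', hd', -⟩ := hB2 (Classical.arbitrary D)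
    have h3 := hc X hX ⟨d, hd⟩ ⟨d', by simpa using hd'⟩
    exact ⟨_, X, ⟨hX, le_antisymm hb h3, hB1, hB2⟩, rfl⟩
  obtain ⟨X, ⟨hX, hb, hB1, hB2⟩, hn⟩ := Nat.find_spec hex
  have hmin : ∀ Z, Good Z → Nat.card {d : D // X d = true} ≤ Nat.card {d : D // Z d = true} := by
    intro Z hZ
    rw [hn]
    exact Nat.find_min' hex ⟨Z, hZ, rfl⟩
  have hXc : M.VSet (fun d => !X d) := fun d => by simp only [hX d]
  have hcard2 : 6 ≤ Nat.card {d : D // X d = false} := by
    have := ct19_card hXc hB2
    have e : {d : D // (!X d) = true} ≃ {d : D // X d = false} :=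
      Equiv.subtypeEquivRight (fun d => by simp)
    rwa [Nat.card_congr e] at this
  obtain ⟨dc, hdc, -⟩ := hB2 (Classical.arbitrary D)
  refine ⟨X, hX, hb, ⟨dc, by simpa using hdc⟩, ct19_card hX hB1, hcard2, ?_⟩
  intro M' hM'
  -- a star dart
  obtain ⟨y0, hy0⟩ : ∃ y : {d : D // X d = true ∨ X (M.a d) = true}, X y.1 = false := by
    have hpos : 0 < Nat.card {d : D // X d = true ∧ X (M.a d) = false} := by
      have : M.bd X = Nat.card {d : D // X d = true ∧ X (M.a d) = false} := rfl
      omega
    obtain ⟨d⟩ := (Nat.card_pos_iff.1 hpos).1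
    exact ⟨⟨M.a d.1, Or.inr (by rw [M.a2]; exact d.2.1)⟩, d.2.2⟩
  -- the key claim
  have key : ∀ Z' : {d : D // X d = true ∨ X (M.a d) = true} → Bool, M'.VSet Z' → M'.bd Z' ≤ 3 →
      (∀ y, X y.1 = false → Z' y = false) →
      (∃ v, ∀ d, Z' d = true → M'.VEq v d) ∨ (∃ v, ∀ d, Z' d = false → M'.VEq v d) := by
    intro Z' hZ' hbZ' hstar
    let Z : D → Bool := fun d => if h : X d = true then Z' ⟨d, Or.inl h⟩ else false
    have hZt : ∀ d (h : X d = true), Z d = Z' ⟨d, Or.inl h⟩ := fun d h => dif_pos h
    have hZf : ∀ d, X d = false → Z d = false := by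
      intro d h
      exact dif_neg (by rw [h]; exact Bool.false_ne_true)
    have hsub : ∀ d, Z d = true → X d = true := by
      intro d hd
      by_contra hcon
      rw [hZf d (by simpa using hcon)] at hd
      exact Bool.false_ne_true hd
    have hZV : M.VSet Z := by
      intro d
      by_cases h : X d = true
      · have h2 : X (M.s d) = true := by rw [hX]; exact h
        rw [hZt d h, hZt _ h2]
        have h3 : (⟨M.s d, Or.inl h2⟩ : {d : D // X d = true ∨ X (M.a d) = true}) =
            M'.s ⟨d, Or.inl h⟩ := Subtype.ext (hM'.hs ⟨d, Or.inl h⟩ h).symm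
        rw [h3]
        exact hZ' _
      · have h' : X d = false := by simpa using h
        rw [hZf d h', hZf (M.s d) (by rw [hX]; exact h')]
    have hae : ∀ d (h : X d = true), Z (M.a d) = Z' (M'.a ⟨d, Or.inl h⟩) := by
      intro d h
      by_cases h2 : X (M.a d) = true
      · rw [hZt _ h2]
        congr 1
        exact Subtype.ext (hM'.ha ⟨d, Or.inl h⟩).symm
      · have h2' : X (M.a d) = false := by simpa using h2
        rw [hZf _ h2']
        refine (hstar _ ?_).symm
        rw [hM'.ha]
        exact h2'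
    have hbd : M.bd Z = M'.bd Z' := by
      unfold CMap.bd
      have hxd : ∀ d : {d : D // X d = true ∨ X (M.a d) = true}, Z' d = true → X d.1 = true := by
        intro d hd
        by_contra hcon
        rw [hstar d (by simpa using hcon)] at hd
        exact Bool.false_ne_true hd
      refine Nat.card_congr ⟨fun d => ⟨⟨d.1, Or.inl (hsub d.1 d.2.1)⟩, ?_⟩,
        fun d => ⟨d.1.1, ?_⟩, ?_, ?_⟩
      · refine ⟨?_, ?_⟩
        · rw [← hZt d.1 (hsub d.1 d.2.1)]; exact d.2.1
        · rw [← hae d.1 (hsub d.1 d.2.1)]; exact d.2.2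
      · have h1 := hxd d.1 d.2.1
        refine ⟨?_, ?_⟩
        · rw [hZt d.1.1 h1]; exact d.2.1
        · rw [hae d.1.1 h1]; exact d.2.2
      · intro d; rfl
      · intro d; rfl
    by_cases hBig : ct19Big M Z
    · right
      refine ⟨y0, fun d hd => ?_⟩
      -- `Z` is good, hence `Z = X`
      have hBc : ct19Big M (fun d => !Z d) := by
        intro v
        obtain ⟨d, hd, hv⟩ := hB2 v
        refine ⟨d, ?_, hv⟩
        have : X d = false := by simpa using hd
        simp [hZf d this]
      obtain ⟨z1, hz1, -⟩ := hBig (Classical.arbitrary D)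
      obtain ⟨z2, hz2, -⟩ := hBc (Classical.arbitrary D)
      have h3 := hc Z hZV ⟨z1, hz1⟩ ⟨z2, by simpa using hz2⟩
      have hgood : Good Z := ⟨hZV, le_antisymm (hbd ▸ hbZ') h3, hBig, hBc⟩
      have hle := hmin Z hgood
      have hXd : X d.1 = false := by
        by_contra hcon
        have hXd : X d.1 = true := by simpa using hcon
        have hZd : Z d.1 = false := by rw [hZt _ hXd]; exact hd
        -- the inclusion of `Z` in `X` is not surjective
        have hlt : Nat.card {d : D // Z d = true} < Nat.card {d : D // X d = true} := by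
          have e1 : Nat.card {d : D // Z d = true} = (({d | Z d = true} : Set D)).ncard := rfl
          have e2 : Nat.card {d : D // X d = true} = (({d | X d = true} : Set D)).ncard := rfl
          rw [e1, e2]
          apply Set.ncard_lt_ncard _ (Set.toFinite _)
          refine ⟨fun z hz => hsub z hz, fun hcon2 => ?_⟩
          have : Z d.1 = true := hcon2 hXd
          rw [hZd] at this
          exact Bool.false_ne_true this
        omega
      exact hM'.star _ _ hy0 hXd
    · left
      unfold ct19Big at hBig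
      push Not at hBig
      obtain ⟨v, hv⟩ := hBig
      by_cases hne : ∃ d, Z' d = true
      · obtain ⟨d0, hd0⟩ := hne
        have hX0 : X d0.1 = true := by
          by_contra hcon
          rw [hstar d0 (by simpa using hcon)] at hd0
          exact Bool.false_ne_true hd0
        refine ⟨d0, fun d hd => ?_⟩
        have hX1 : X d.1 = true := by
          by_contra hcon
          rw [hstar d (by simpa using hcon)] at hd
          exact Bool.false_ne_true hd
        have h0 := hv d0.1 (by rw [hZt _ hX0]; exact hd0)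
        have h1 := hv d.1 (by rw [hZt _ hX1]; exact hd)
        have hs0 : (M'.s d0).1 = M.s d0.1 := hM'.hs d0 hX0
        have hs1 : (M'.s (M'.s d0)).1 = M.s (M.s d0.1) := by
          rw [hM'.hs (M'.s d0) (by rw [hs0, hX]; exact hX0), hs0]
        rcases ct19_veq_trans (ct19_veq_symm h0) h1 with e | e | e
        · exact Or.inl (Subtype.ext e)
        · exact Or.inr (Or.inl (Subtype.ext (by rw [hs0]; exact e)))
        · exact Or.inr (Or.inr (Subtype.ext (by rw [hs1]; exact e)))
      · push Not at hne
        exact ⟨y0, fun d hd => absurd hd (hne d)⟩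
  intro Z' hZ' hbZ'
  by_cases hs : Z' y0 = false
  · have hstar : ∀ y, X y.1 = false → Z' y = false := by
      intro y hy
      rcases hM'.star y0 y hy0 hy with e | e | e
      · rw [e]; exact hs
      · rw [e, hZ']; exact hs
      · rw [e, hZ', hZ']; exact hs
    exact key Z' hZ' hbZ' hstar
  · have hs' : Z' y0 = true := by simpa using hs
    have hstar : ∀ y, X y.1 = false → (!Z' y) = false := by
      intro y hy
      rcases hM'.star y0 y hy0 hy with e | e | e
      · rw [e, hs']; rfl
      · rw [e, hZ', hs']; rfl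
      · rw [e, hZ', hZ', hs']; rfl
    have hZc : M'.VSet (fun d => !Z' d) := fun d => by simp only [hZ' d]
    have hbc : M'.bd (fun d => !Z' d) ≤ 3 := by rw [ct19_bd_compl]; exact hbZ'
    rcases key (fun d => !Z' d) hZc hbc hstar with ⟨v, hv⟩ | ⟨v, hv⟩
    · exact Or.inr ⟨v, fun d hd => hv d (by simp [hd])⟩
    · exact Or.inl ⟨v, fun d hd => hv d (by simp [hd])⟩

end maps

end Pool.Agent.Helper17.CT
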